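import Mathlib

set_option autoImplicit false

namespace Pool.Agent.H.MP_981724_an

open MeasureTheory Filter Topology Set Complex Real

noncomputable def cc : ℂ := -(2 * π * I)

noncomputable def J (n : ℕ) (x : ℝ) : ℂ :=
  ∫ s in (0 : ℝ)..(1 / 10), (cc * s) ^ n * cexp (cc * s * x)

theorem nrm (n : ℕ) (x s : ℝ) (hs : s ∈ uIoc (0 : ℝ) (1 / 10)) :
    ‖(cc * s) ^ n * cexp (cc * s * x)‖ ≤ (4 / 5) ^ n := by
  rw [uIoc_of_le (by norm_num)] at hs
  have h1 : ‖cexp (cc * s * x)‖ = 1 := by simp [cc, Complex.norm_exp]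
  have h2 : ‖cc * s‖ ≤ 4 / 5 := by
    simp only [cc, norm_mul, norm_neg, Complex.norm_real, Complex.norm_I, Complex.norm_ofNat,
      Real.norm_eq_abs, abs_of_pos pi_pos, abs_of_pos hs.1]
    nlinarith [pi_le_four, hs.2, hs.1, pi_pos]
  rw [norm_mul, h1, mul_one, norm_pow]
  exact pow_le_pow_left₀ (norm_nonneg _) h2 n

theorem J_le (n : ℕ) (x : ℝ) : ‖J n x‖ ≤ (4 / 5) ^ n := by
  have := intervalIntegral.norm_integral_le_of_norm_le_const (nrm n x)
  refine this.trans ?_
  norm_num

theorem J_cont (n : ℕ) : Continuous (J n) :=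
  intervalIntegral.continuous_parametric_intervalIntegral_of_continuous' (by fun_prop) _ _

theorem J_zero (n : ℕ) : Tendsto (J n) (cocompact ℝ) (𝓝 0) := by
  have := Real.tendsto_integral_exp_smul_cocompact
    ((Ioc (0 : ℝ) (1 / 10)).indicator fun s : ℝ => (cc * s) ^ n)
  refine this.congr fun x => ?_
  rw [J, intervalIntegral.integral_of_le (by norm_num), ← integral_indicator measurableSet_Ioc]
  refine integral_congr_ae (Eventually.of_forall fun s => ?_)
  by_cases h : s ∈ Ioc (0 : ℝ) (1 / 10)
  · simp only [indicator_of_mem h, Circle.smul_def, Real.fourierChar_apply, smul_eq_mul, cc]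
    rw [mul_comm]
    congr 2
    push_cast
    ring
  · simp only [indicator_of_notMem h, smul_zero]

theorem J_sum (n : ℕ) (x t : ℝ) :
    HasSum (fun k : ℕ => ((k.factorial : ℂ)⁻¹ * t ^ k) * J (n + k) x) (J n (x + t)) := by
  simp only [J, ← intervalIntegral.integral_const_mul]
  refine intervalIntegral.hasSum_integral_of_dominated_convergence
    (fun k _ => |t| ^ k / k.factorial) (fun k => by fun_prop)
    (fun k => Eventually.of_forall fun s hs => ?_)
    (Eventually.of_forall fun s _ => Real.summable_pow_div_factorial _) (by simp)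
    (Eventually.of_forall fun s _ => ?_)
  · rw [norm_mul]
    have h := (nrm (n + k) x s hs).trans (pow_le_one₀ (by norm_num) (by norm_num))
    refine (mul_le_of_le_one_right (norm_nonneg _) h).trans (le_of_eq ?_)
    simp [div_eq_inv_mul]
  · have h := (NormedSpace.exp_series_hasSum_exp' (𝕂 := ℂ) (cc * s * t)).mul_left
      ((cc * s) ^ n * cexp (cc * s * x))
    rw [← Complex.exp_eq_exp_ℂ] at h
    rw [ofReal_add, mul_add, Complex.exp_add, ← mul_assoc]
    have e : (fun k : ℕ => (k.factorial : ℂ)⁻¹ * t ^ k * ((cc * s) ^ (n + k) * cexp (cc * s * x))) =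
        fun k : ℕ => (cc * s) ^ n * cexp (cc * s * x) * (k.factorial : ℂ)⁻¹ • (cc * s * t) ^ k := by
      ext k
      simp only [smul_eq_mul, mul_pow, pow_add]
      ring
    rw [e]
    exact h

theorem J_ne : (J 2 0).re ≠ 0 := by
  have : J 2 0 = ((-(4 * π ^ 2 / 3000) : ℝ) : ℂ) := by
    simp only [J, ofReal_zero, mul_zero, Complex.exp_zero, mul_one, mul_pow,
      intervalIntegral.integral_const_mul, ← ofReal_pow, intervalIntegral.integral_ofReal,
      integral_pow, cc, neg_sq, I_sq]
    push_cast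
    ring
  rw [this, ofReal_re]
  have := pi_pos
  exact neg_ne_zero.2 (by positivity)

end Pool.Agent.H.MP_981724_an
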